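import Pool.Agent.MP_dd083e_co.Final

set_option autoImplicit false

/-!
# MP_dd083e_co, Q1 (Kalai-Sarkaria): the full positive answer

All definitions (`SComplex`, `EmbedsInSphere`, `cyclicBoundary`, `ginExps`, `symShift`, ...) are in
`Pool/Agent/MP_dd083e_co/Defs.lean`; the proof is in the other files of that folder.

Outline. A complex embeddable in `S^(d-1)` has deleted join of `Z/2`-index less than `d`
(`TaskT*.lean`, by the classes of the signs of the coordinates of `f x - f y`). For such a
complex, with linear forms `ℓ_v` in `n - d` variables with generic coefficients, the products
`∏_{v ∈ A} ℓ_v` over the non-faces `A`, together with the power `X_o^(2D-d)` of one variable, span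
all forms of degree `D` (`EStep.lean`); this is proved over `F_2(g)` from a symmetric cycle on the
deleted join attached to a functional, its quadratic form and differentiation with respect to the
matrix entries (`Sys.lean`, `Cyc.lean`, `P4b.lean`, `P4c.lean`, `Extract.lean`, `Section4.lean`),
and transferred to characteristic 0 by a nonvanishing minor (`Transfer.lean`). Hence the generic
initial ideal contains every monomial of weight greater than `d` (`TaskG.lean`). For the cyclic
polytope the count of monomials (`TaskN.lean`, `TaskF.lean`) gives equality.
-/

namespace Pool.Agent.Results.MP_dd083e_co.KalaiSarkaria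

open Pool.Agent.KS

universe u

/-- The Kalai-Sarkaria problem: for every field `k` of characteristic `0`, all `d ≥ 1` and
`n ≥ d + 1`, if `L` is a simplicial complex with vertices in `Fin n` whose geometric realization
embeds topologically in the sphere `S^(d-1)`, then the symmetric algebraic shifting of `L` is
contained in the symmetric algebraic shifting of the boundary complex of the cyclic polytope
`C(d,n)`. -/
theorem result (k : Type u) [Field k] [CharZero k] (d n : ℕ) (hd : 1 ≤ d) (hn : d + 1 ≤ n)
    (L : SComplex n) (hL : L.EmbedsInSphere (d - 1)) :
    symShift k L ⊆ symShift k (cyclicBoundary d n) := by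
  obtain ⟨m, rfl⟩ : ∃ m, d = m + 1 := ⟨d - 1, by omega⟩
  exact kalai_sarkaria k m n hn L hL

end Pool.Agent.Results.MP_dd083e_co.KalaiSarkaria
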